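import Pool.Agent.D0H10.Q4.StmA
import Pool.Agent.Y699.Ql

/-!
Project Q4, module A1: the supplementary law `[-2 / π] = i ^ (im π / 2)`.
-/

set_option autoImplicit false

open H385 (ZI RQ im1 nrm)

namespace Pool.Agent.D0H77.Q4

open Pool.Agent.Y699
open Pool.Agent.D0H10.Q4
open Pool.Agent.H304R2.EC.A1 (prim prim_mul prim_cancel prim_one prim_norm_odd prim_star eq_one_of_prim
  norm_def' re_mul' im_mul' eq_of_dvd prim_ne_zero)
open NumberTheorySymbols

lemma sup_inert {π : ZI} (h : PP π) {q : ℕ} (hq : q.Prime) (h3 : q % 4 = 3) (he : π = -(q : ZI)) :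
    q4 π (-2) = rh π := by
  have e1 : rh π = 1 := by
    unfold rh
    rw [he]
    simp
  rw [e1]
  apply q4_eq h (Or.inr (by decide))
  obtain ⟨k, hk, hk2⟩ := inert_quarter h3
  have hn : nrm π = q * q := by rw [he, nrm_inert]
  rw [hn, hk2]
  have := Fact.mk hq
  have hm : ¬ (q : ℤ) ∣ (-2) := by
    intro hd
    have h1 : (q : ℤ) ≤ 2 := Int.le_of_dvd (by norm_num) (by rwa [Int.dvd_neg] at hd)
    omega
  have h5 : (q : ℤ) ∣ (-2) ^ (q - 1) - 1 := by
    rw [← ZMod.intCast_zmod_eq_zero_iff_dvd]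
    push_cast
    rw [ZMod.pow_card_sub_one_eq_one, sub_self]
    intro h0
    apply hm
    rw [← ZMod.intCast_zmod_eq_zero_iff_dvd]
    push_cast
    exact h0
  have h6 : q - 1 = 4 * k + 2 := by omega
  rw [h6] at h5
  have h7 : (q : ℤ) ∣ (-2) ^ ((4 * k + 2) * (k + 1)) - 1 := by
    rw [pow_mul]
    have := sub_dvd_pow_sub_pow ((-2 : ℤ) ^ (4 * k + 2)) 1 (k + 1)
    rw [one_pow] at this
    exact h5.trans this
  have h8 := dvd_cast (π := (q : ZI)) dvd_rfl h7
  push_cast at h8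
  rw [he]
  exact (neg_dvd).2 h8

/-- the Jacobi symbol of `a + b` modulo `a² + b²` -/
lemma jac_sum {a b : ℤ} {p : ℕ} (hp : p.Prime) (h4 : p % 4 = 1) (hn : (p : ℤ) = a ^ 2 + b ^ 2)
    (ho : (a + b) % 2 = 1) : J((a + b) | p) = e8 (a + b).natAbs := by
  set m : ℤ := a + b with hm
  have hmo : Odd m.natAbs := by
    rw [Int.natAbs_odd]
    exact Int.odd_iff.2 ho
  have h1 : J(m | p) = J((m.natAbs : ℤ) | p) := by
    rcases Int.natAbs_eq m with h | h
    · rw [← h]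
    · have h3 : J(m | p) = J(-(m.natAbs : ℤ) | p) := by rw [← h]
      rw [h3, jacobiSym.neg _ (Nat.odd_iff.2 (by omega)), ZMod.χ₄_nat_one_mod_four h4, one_mul]
  rw [h1, ← jacobiSym.quadratic_reciprocity_one_mod_four h4 hmo]
  -- the symbol of `2 p`
  have hd : (m.natAbs : ℤ) ∣ m := Int.natAbs_dvd.2 dvd_rfl
  have h2 : J((2 * p : ℤ) | m.natAbs) = J((a - b) ^ 2 | m.natAbs) := by
    apply jacobiSym.mod_left'
    obtain ⟨c, hc⟩ := hd
    have h5 : 2 * (p : ℤ) = (a - b) ^ 2 + (m.natAbs : ℤ) * (c * m) := by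
      have : (m.natAbs : ℤ) * (c * m) = m ^ 2 := by
        rw [← mul_assoc, ← hc, sq]
      rw [this, hn, hm]; ring
    rw [h5, Int.add_mul_emod_self_left]
  have hcop : IsCoprime (a - b) m := by
    rw [Int.isCoprime_iff_gcd_eq_one]
    by_contra hg
    obtain ⟨r, hr, hrd⟩ := Nat.exists_prime_and_dvd hg
    have r1 : (r : ℤ) ∣ a - b := (Int.natCast_dvd_natCast.2 hrd).trans (Int.gcd_dvd_left _ _)
    have r2 : (r : ℤ) ∣ m := (Int.natCast_dvd_natCast.2 hrd).trans (Int.gcd_dvd_right _ _)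
    have r3 : r ≠ 2 := by
      rintro rfl
      have : m % 2 = 0 := Int.emod_eq_zero_of_dvd (by exact_mod_cast r2)
      omega
    have hrp : Prime (r : ℤ) := Nat.prime_iff_prime_int.1 hr
    have r2' : ¬ (r : ℤ) ∣ 2 := by
      intro h
      have h5 : r ∣ 2 := by exact_mod_cast h
      exact r3 ((Nat.prime_dvd_prime_iff_eq hr Nat.prime_two).1 h5)
    have r4 : (r : ℤ) ∣ a := by
      have : (r : ℤ) ∣ 2 * a := by
        have := dvd_add r1 r2
        have e : a - b + m = 2 * a := by rw [hm]; ring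
        rwa [e] at this
      exact (hrp.dvd_or_dvd this).resolve_left r2'
    have r5 : (r : ℤ) ∣ b := by
      have : (r : ℤ) ∣ 2 * b := by
        have := dvd_sub r2 r1
        have e : m - (a - b) = 2 * b := by rw [hm]; ring
        rwa [e] at this
      exact (hrp.dvd_or_dvd this).resolve_left r2'
    obtain ⟨x, hx⟩ := r4
    obtain ⟨y, hy⟩ := r5
    have r6 : (r : ℤ) * r ∣ (p : ℤ) := by
      rw [hn, hx, hy]
      exact ⟨x ^ 2 + y ^ 2, by ring⟩
    have r7 : r * r ∣ p := by exact_mod_cast r6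
    have r8 : r ∣ p := (dvd_mul_right _ _).trans r7
    have r9 : r = p := (Nat.prime_dvd_prime_iff_eq hr hp).1 r8
    rw [r9] at r7
    have := Nat.le_of_dvd hp.pos r7
    have := hp.two_le
    nlinarith
  have h6 : J((a - b) ^ 2 | m.natAbs) = 1 := by
    apply jacobiSym.sq_one'
    have := Int.isCoprime_iff_gcd_eq_one.1 hcop
    rw [Int.gcd, Int.natAbs_natCast]
    exact this
  rw [h6, jacobiSym.mul_left] at h2
  have h7 : J(2 | m.natAbs) = e8 m.natAbs := by
    rw [jacobiSym.at_two hmo, ZMod.χ₈_nat_eq_if_mod_eight]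
    have h8 : m.natAbs % 2 = 1 := Nat.odd_iff.1 hmo
    unfold e8
    rw [if_neg (by omega)]
  rw [h7] at h2
  unfold e8 at h2 ⊢
  split_ifs at h2 ⊢ with h8
  · linarith
  · linarith

lemma sup_split {π : ZI} (h : PP π) {p : ℕ} (hp : p.Prime) (h4 : p % 4 = 1) (hn : π.norm = p) :
    q4 π (-2) = rh π := by
  have fp : Fact p.Prime := ⟨hp⟩
  obtain ⟨n, hpn⟩ : ∃ n, p = 4 * n + 1 := ⟨p / 4, by omega⟩
  have hnrm : nrm π = p := by
    have := nrm_cast π
    rw [hn] at this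
    exact_mod_cast this
  have hnn : nrm π / 4 = n := by omega
  have hnn2 : nrm π / 2 = 2 * n := by omega
  have hnorm : (p : ℤ) = π.re ^ 2 + π.im ^ 2 := by rw [← hn, norm_def']
  set a := π.re with ha
  set b := π.im with hb
  have hprm := h.prm
  obtain ⟨p1, p2⟩ := hprm
  rw [← ha, ← hb] at p2
  rw [← hb] at p1
  have hb0 : b ≠ 0 := by
    intro h0
    rw [h0] at hnorm
    have h5 : (a.natAbs) ^ 2 = p := by
      have : ((a.natAbs : ℤ)) ^ 2 = (p : ℤ) := by rw [Int.natAbs_sq, hnorm]; ring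
      exact_mod_cast this
    rw [← h5] at hp
    exact (Nat.Prime.not_prime_pow (le_refl 2)) hp
  -- congruences
  have c1 : π ∣ (b : ZI) - (a : ZI) * im1 := by
    refine ⟨-im1, ?_⟩
    ext
    · simp only [Zsqrtd.re_sub, re_mul', Zsqrtd.re_intCast, Zsqrtd.im_intCast,
        Zsqrtd.re_neg, Zsqrtd.im_neg]
      simp [im1, hb]
    · simp only [Zsqrtd.im_sub, im_mul', Zsqrtd.re_intCast, Zsqrtd.im_intCast,
        Zsqrtd.re_neg, Zsqrtd.im_neg]
      simp [im1, ha]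
  have c2 : π ∣ (p : ZI) := deg1_dvd hn
  have c3 : π ∣ ((a + b : ℤ) : ZI) ^ 2 - 2 * (a : ZI) ^ 2 * im1 := by
    have e : ((a + b : ℤ) : ZI) ^ 2 - 2 * (a : ZI) ^ 2 * im1 =
        (p : ZI) + 2 * (a : ZI) * ((b : ZI) - (a : ZI) * im1) := by
      have : (p : ZI) = (a : ZI) ^ 2 + (b : ZI) ^ 2 := by
        have := congrArg (Int.cast : ℤ → ZI) hnorm
        push_cast at this
        exact this
      rw [this]
      push_cast
      ring
    rw [e]
    exact dvd_add c2 (c1.mul_left _)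
  have c4' : π ∣ (((a + b : ℤ) : ZI) ^ 2) ^ n - (2 * (a : ZI) ^ 2 * im1) ^ n :=
    c3.trans (sub_dvd_pow_sub_pow _ _ _)
  -- the symbols
  have qa : qr π (a : ZI) = 1 := by
    rw [qr_int h hn, jacobiSym.legendreSym.to_jacobiSym]
    refine jac_one (k := b) (by rw [hnorm]) (by omega) h4 ?_
    apply Int.isCoprime_iff_gcd_eq_one.1
    rw [isCoprime_comm]
    refine (Nat.prime_iff_prime_int.1 hp).coprime_iff_not_dvd.2 fun hd => ?_
    exact split_not_dvd_re h hb0 (dvd_cast c2 hd)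
  have qs : qr π ((a + b : ℤ) : ZI) = e8 (a + b).natAbs := by
    rw [qr_int h hn, jacobiSym.legendreSym.to_jacobiSym]
    exact jac_sum hp h4 hnorm (by omega)
  have ea := qr_euler h (a : ZI)
  have es := qr_euler h ((a + b : ℤ) : ZI)
  rw [qa, hnn2] at ea
  rw [qs, hnn2] at es
  -- conclusion
  have hu : Val4 (im1 ^ n * ((e8 (a + b).natAbs : ℤ) : ZI)) := by
    apply Val4.mul (Val4.pow (Or.inr im1_norm) _)
    right
    unfold e8
    split_ifs <;> decide
  have main : q4 π (-2) = im1 ^ n * ((e8 (a + b).natAbs : ℤ) : ZI) := by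
    apply q4_eq h hu
    rw [hnn]
    have e : (-2 : ZI) ^ n - im1 ^ n * ((e8 (a + b).natAbs : ℤ) : ZI) =
        - im1 ^ n * ((((a + b : ℤ) : ZI) ^ 2) ^ n - (2 * (a : ZI) ^ 2 * im1) ^ n)
        + im1 ^ n * (((a + b : ℤ) : ZI) ^ (2 * n) - ((e8 (a + b).natAbs : ℤ) : ZI))
        - (-2) ^ n * ((a : ZI) ^ (2 * n) - ((1 : ℤ) : ZI)) := by
      have e1 : im1 ^ n * (2 * (a : ZI) ^ 2 * im1) ^ n = (-2) ^ n * (a : ZI) ^ (2 * n) := by
        rw [← mul_pow, pow_mul, ← mul_pow]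
        congr 1
        linear_combination (2 * (a : ZI) ^ 2) * im1_sq
      rw [pow_mul]
      push_cast
      linear_combination -e1
    rw [e]
    exact dvd_sub (dvd_add (c4'.mul_left _) (es.mul_left _)) (ea.mul_left _)
  rw [main]
  -- the finite check
  unfold rh
  rw [← hb]
  have h16 : (4 * (n : ℤ) + 1) = a ^ 2 + b ^ 2 := by
    rw [← hnorm, hpn]; push_cast; ring
  obtain ⟨a', ha'⟩ : ∃ a', a = 8 * a' + a % 8 := ⟨a / 8, by omega⟩
  obtain ⟨b', hb'⟩ : ∃ b', b = 8 * b' + b % 8 := ⟨b / 8, by omega⟩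
  have h17 : a ^ 2 = 16 * (4 * a' ^ 2 + a' * (a % 8)) + (a % 8) ^ 2 := by
    conv_lhs => rw [ha']
    ring
  have h18 : b ^ 2 = 16 * (4 * b' ^ 2 + b' * (b % 8)) + (b % 8) ^ 2 := by
    conv_lhs => rw [hb']
    ring
  have h19 : ∃ r : ℕ, r < 4 ∧ n % 4 = r ∧ im1 ^ n = im1 ^ r := by
    refine ⟨n % 4, Nat.mod_lt _ (by norm_num), rfl, ?_⟩
    conv_lhs => rw [← Nat.div_add_mod n 4, pow_add, pow_mul, im1_four, one_pow, one_mul]
  obtain ⟨r, hr4, hr, hir⟩ := h19
  rw [hir]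
  have ha8 : a % 8 = 1 ∨ a % 8 = 3 ∨ a % 8 = 5 ∨ a % 8 = 7 := by omega
  have hb8 : b % 8 = 0 ∨ b % 8 = 2 ∨ b % 8 = 4 ∨ b % 8 = 6 := by omega
  have key : ∀ (k s : ℕ) (e : ℤ), (b / 2 % 4).toNat = k → r = s → e8 (a + b).natAbs = e →
      im1 ^ s * ((e : ℤ) : ZI) = im1 ^ k →
      im1 ^ r * ((e8 (a + b).natAbs : ℤ) : ZI) = im1 ^ (b / 2 % 4).toNat := by
    intro k s e h1 h2 h3 h5
    rw [h1, h2, h3, h5]
  have e8p : ∀ x : ℤ, (x % 8 = 1 ∨ x % 8 = 7) → e8 x.natAbs = 1 := by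
    intro x hx
    unfold e8
    rw [if_pos (by omega)]
  have e8n : ∀ x : ℤ, (x % 8 = 3 ∨ x % 8 = 5) → e8 x.natAbs = -1 := by
    intro x hx
    unfold e8
    rw [if_neg (by omega)]
  set A2 := 4 * a' ^ 2 + a' * (a % 8) with hA2
  set B2 := 4 * b' ^ 2 + b' * (b % 8) with hB2
  clear_value A2 B2
  rcases ha8 with h8 | h8 | h8 | h8 <;> rcases hb8 with h9 | h9 | h9 | h9 <;>
    rw [h8] at h17 <;> rw [h9] at h18 <;> first
    | (exfalso; omega)
    | (refine key 0 0 1 (by omega) (by omega) (e8p _ (by omega)) (by decide))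
    | (refine key 0 2 (-1) (by omega) (by omega) (e8n _ (by omega)) (by decide))
    | (refine key 1 1 1 (by omega) (by omega) (e8p _ (by omega)) (by decide))
    | (refine key 1 3 (-1) (by omega) (by omega) (e8n _ (by omega)) (by decide))
    | (refine key 2 2 1 (by omega) (by omega) (e8p _ (by omega)) (by decide))
    | (refine key 2 0 (-1) (by omega) (by omega) (e8n _ (by omega)) (by decide))
    | (refine key 3 3 1 (by omega) (by omega) (e8p _ (by omega)) (by decide))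
    | (refine key 3 1 (-1) (by omega) (by omega) (e8n _ (by omega)) (by decide))

theorem sup : S_SUP := by
  intro π h
  rcases h.cases with ⟨p, hp, hp4, hpn⟩ | ⟨p, hp, hp4, hpn⟩
  · exact sup_split h hp hp4 hpn
  · exact sup_inert h hp hp4 hpn

end Pool.Agent.D0H77.Q4
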